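import Pool.Agent.H15.LE.Cosn
import Pool.Agent.H15.LE.Low
import Pool.Agent.H88.GK.Def

/-!
PROJECT LE, block G. Taylor estimates for the comparison of the two-point function with a Green function.
-/

namespace H15LE

open H5DF H95LBD H95LE MeasureTheory H88GK

variable {d : ℕ}

lemma cos_tay (a : ℝ) : |Real.cos a - 1 + a ^ 2 / 2| ≤ (a ^ 2 / 2) ^ 2 := by
  have h0 := Real.one_sub_sq_div_two_le_cos (x := a)
  rw [abs_of_nonneg (by linarith)]
  by_cases h1 : |a| ≤ 1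
  · have h := Real.cos_bound h1
    have h2 := (abs_le.1 h).2
    have h3 : |a| ^ 4 = a ^ 4 := by
      rw [show (4 : ℕ) = 2 * 2 by norm_num, pow_mul, pow_mul, sq_abs]
    rw [h3] at h2
    nlinarith [sq_nonneg (a ^ 2)]
  · push Not at h1
    by_cases h2 : 2 ≤ a ^ 2
    · have := Real.cos_le_one a
      nlinarith
    · push Not at h2
      have h3 : |a| ≤ Real.pi := by
        have : |a| ^ 2 < 2 ^ 2 := by rw [sq_abs]; linarith
        have h4 : |a| < 2 := lt_of_pow_lt_pow_left₀ 2 (by norm_num) this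
        have := Real.pi_gt_three
        linarith
      have h5 : Real.cos |a| ≤ Real.cos 1 :=
        Real.cos_le_cos_of_nonneg_of_le_pi (by norm_num) h3 h1.le
      rw [Real.cos_abs] at h5
      have h6 := Real.cos_one_le
      nlinarith [sq_nonneg (a ^ 2 / 2 - 1 / 2)]

lemma prod_sub_one {ι : Type*} (s : Finset ι) (c t : ι → ℝ) (h1 : ∀ i ∈ s, |c i| ≤ 1)
    (h2 : ∀ i ∈ s, |c i - 1| ≤ t i) : |∏ i ∈ s, c i| ≤ 1 ∧ |∏ i ∈ s, c i - 1| ≤ ∑ i ∈ s, t i := by
  classical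
  induction s using Finset.induction_on with
  | empty => simp
  | insert j s hj ih =>
    obtain ⟨ih1, ih2⟩ := ih (fun i hi => h1 i (Finset.mem_insert_of_mem hi))
      (fun i hi => h2 i (Finset.mem_insert_of_mem hi))
    have hj1 := h1 j (Finset.mem_insert_self _ _)
    have hj2 := h2 j (Finset.mem_insert_self _ _)
    rw [Finset.prod_insert hj, Finset.sum_insert hj]
    constructor
    · rw [abs_mul]
      calc |c j| * |∏ i ∈ s, c i| ≤ 1 * 1 := mul_le_mul hj1 ih1 (abs_nonneg _) zero_le_one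
        _ = 1 := one_mul 1
    · have e : c j * ∏ i ∈ s, c i - 1 = (c j - 1) * ∏ i ∈ s, c i + (∏ i ∈ s, c i - 1) := by ring
      rw [e]
      refine (abs_add_le _ _).trans (add_le_add ?_ ih2)
      rw [abs_mul]
      calc |c j - 1| * |∏ i ∈ s, c i| ≤ |c j - 1| * 1 :=
            mul_le_mul_of_nonneg_left ih1 (abs_nonneg _)
        _ ≤ t j := by rw [mul_one]; exact hj2

lemma prod_tay {ι : Type*} (s : Finset ι) (c t : ι → ℝ) {K : ℝ} (hK : 1 ≤ K)
    (h1 : ∀ i ∈ s, |c i| ≤ 1) (h2 : ∀ i ∈ s, |c i - 1| ≤ t i)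
    (h3 : ∀ i ∈ s, |c i - 1 + t i| ≤ K * t i ^ 2) :
    |∏ i ∈ s, c i - 1 + ∑ i ∈ s, t i| ≤ K * (∑ i ∈ s, t i) ^ 2 := by
  classical
  induction s using Finset.induction_on with
  | empty => simp
  | insert j s hj ih =>
    have ih0 := ih (fun i hi => h1 i (Finset.mem_insert_of_mem hi))
      (fun i hi => h2 i (Finset.mem_insert_of_mem hi))
      (fun i hi => h3 i (Finset.mem_insert_of_mem hi))
    obtain ⟨-, ih2⟩ := prod_sub_one s c t (fun i hi => h1 i (Finset.mem_insert_of_mem hi))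
      (fun i hi => h2 i (Finset.mem_insert_of_mem hi))
    have hj2 := h2 j (Finset.mem_insert_self _ _)
    have hj3 := h3 j (Finset.mem_insert_self _ _)
    have htj : 0 ≤ t j := (abs_nonneg _).trans hj2
    have hT : 0 ≤ ∑ i ∈ s, t i := (abs_nonneg _).trans ih2
    rw [Finset.prod_insert hj, Finset.sum_insert hj]
    set P := ∏ i ∈ s, c i
    set T := ∑ i ∈ s, t i
    have e : c j * P - 1 + (t j + T) = (P - 1 + T) + (c j - 1 + t j) + (c j - 1) * (P - 1) := by ring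
    rw [e]
    have h4 : |(c j - 1) * (P - 1)| ≤ t j * T := by
      rw [abs_mul]
      exact mul_le_mul hj2 ih2 (abs_nonneg _) htj
    calc |(P - 1 + T) + (c j - 1 + t j) + (c j - 1) * (P - 1)|
        ≤ |(P - 1 + T) + (c j - 1 + t j)| + |(c j - 1) * (P - 1)| := abs_add_le _ _
      _ ≤ |P - 1 + T| + |c j - 1 + t j| + |(c j - 1) * (P - 1)| := by
          have := abs_add_le (P - 1 + T) (c j - 1 + t j)
          linarith
      _ ≤ K * T ^ 2 + K * t j ^ 2 + t j * T := by linarith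
      _ ≤ K * (t j + T) ^ 2 := by nlinarith [mul_nonneg htj hT]

lemma cos_mul_tay {ι : Type*} (s : Finset ι) (a : ι → ℝ) :
    |∏ i ∈ s, Real.cos (a i) - 1 + ∑ i ∈ s, a i ^ 2 / 2| ≤ (∑ i ∈ s, a i ^ 2 / 2) ^ 2 := by
  have h := prod_tay s (fun i => Real.cos (a i)) (fun i => a i ^ 2 / 2) (K := 1) le_rfl
    (fun i _ => Real.abs_cos_le_one _) (fun i _ => ?_) (fun i _ => ?_)
  · simpa using h
  · have h1 := Real.one_sub_sq_div_two_le_cos (x := a i)
    have h2 := Real.cos_le_one (a i)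
    rw [abs_le]
    constructor <;> linarith
  · rw [one_mul]; exact cos_tay _

lemma ee_tay (k : Fin d → ℝ) : |1 - ee k - (∑ i, k i ^ 2) / 4| ≤ (∑ i, k i ^ 2) ^ 2 / 8 := by
  have h := prod_tay (Finset.univ : Finset (Fin d)) (fun i => (1 + Real.cos (k i)) / 2)
    (fun i => k i ^ 2 / 4) (K := 2) (by norm_num) (fun i _ => ?_) (fun i _ => ?_) (fun i _ => ?_)
  · rw [← Finset.sum_div] at h
    have e : 1 - ee k - (∑ i, k i ^ 2) / 4 =
        -((∏ i, (1 + Real.cos (k i)) / 2) - 1 + (∑ i, k i ^ 2) / 4) := by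
      unfold ee; ring
    rw [e, abs_neg]
    refine h.trans (le_of_eq ?_)
    ring
  · have h1 := Real.neg_one_le_cos (k i)
    have h2 := Real.cos_le_one (k i)
    rw [abs_le]
    constructor <;> linarith
  · have h1 := Real.one_sub_sq_div_two_le_cos (x := k i)
    have h2 := Real.cos_le_one (k i)
    rw [abs_le]
    constructor <;> linarith
  · have h1 := cos_tay (k i)
    have e : (1 + Real.cos (k i)) / 2 - 1 + k i ^ 2 / 4 = (Real.cos (k i) - 1 + k i ^ 2 / 2) / 2 := by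
      ring
    rw [e, abs_div, abs_of_pos (by norm_num : (0 : ℝ) < 2)]
    calc |Real.cos (k i) - 1 + k i ^ 2 / 2| / 2 ≤ (k i ^ 2 / 2) ^ 2 / 2 := by linarith
      _ = 2 * (k i ^ 2 / 4) ^ 2 := by ring

lemma sum_sq_le_sq_sum {ι : Type*} (s : Finset ι) (f : ι → ℝ) (hf : ∀ i ∈ s, 0 ≤ f i) :
    ∑ i ∈ s, f i ^ 2 ≤ (∑ i ∈ s, f i) ^ 2 := by
  rw [pow_two (∑ i ∈ s, f i), Finset.sum_mul]
  refine Finset.sum_le_sum fun i hi => ?_
  rw [pow_two]
  exact mul_le_mul_of_nonneg_left (Finset.single_le_sum hf hi) (hf i hi)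

lemma uu_tay (hd : 0 < d) (k : Fin d → ℝ) :
    |uu k - (∑ i, k i ^ 2) / (2 * d)| ≤ (∑ i, k i ^ 2) ^ 2 / (4 * d) := by
  have hd0 : (0 : ℝ) < d := by exact_mod_cast hd
  have e : uu k - (∑ i, k i ^ 2) / (2 * d) =
      -(∑ i, (Real.cos (k i) - 1 + k i ^ 2 / 2)) / d := by
    unfold uu
    rw [Finset.sum_add_distrib, Finset.sum_sub_distrib, ← Finset.sum_div]
    simp only [Finset.sum_const, Finset.card_univ, Fintype.card_fin, nsmul_eq_mul, mul_one]
    field_simp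
    ring
  rw [e, abs_div, abs_neg, abs_of_pos hd0]
  have h1 : |∑ i, (Real.cos (k i) - 1 + k i ^ 2 / 2)| ≤ ∑ i, (k i ^ 2 / 2) ^ 2 :=
    (Finset.abs_sum_le_sum_abs _ _).trans (Finset.sum_le_sum fun i _ => cos_tay (k i))
  have h2 : ∑ i, (k i ^ 2 / 2) ^ 2 ≤ (∑ i, k i ^ 2 / 2) ^ 2 :=
    sum_sq_le_sq_sum _ _ fun i _ => by positivity
  rw [← Finset.sum_div] at h2
  rw [div_le_div_iff₀ hd0 (by positivity)]
  have h3 := h1.trans h2
  calc |∑ i, (Real.cos (k i) - 1 + k i ^ 2 / 2)| * (4 * d) ≤ ((∑ i, k i ^ 2) / 2) ^ 2 * (4 * d) :=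
        mul_le_mul_of_nonneg_right h3 (by positivity)
    _ = (∑ i, k i ^ 2) ^ 2 * d := by ring

lemma ee_nonneg (k : Fin d → ℝ) : 0 ≤ ee k :=
  Finset.prod_nonneg fun i _ => by have := Real.neg_one_le_cos (k i); linarith

lemma ee_le_one (k : Fin d → ℝ) : ee k ≤ 1 :=
  Finset.prod_le_one (fun i _ => by have := Real.neg_one_le_cos (k i); linarith)
    (fun i _ => by have := Real.cos_le_one (k i); linarith)

lemma ee_low (hd : 0 < d) (k : Fin d → ℝ) : uu k / 2 ≤ 1 - ee k := by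
  have hd0 : (0 : ℝ) < d := by exact_mod_cast hd
  have h1 : ∀ j, ee k ≤ (1 + Real.cos (k j)) / 2 := by
    intro j
    unfold ee
    rw [← Finset.mul_prod_erase _ _ (Finset.mem_univ j)]
    have h2 : 0 ≤ (1 + Real.cos (k j)) / 2 := by have := Real.neg_one_le_cos (k j); linarith
    have h3 : ∏ i ∈ Finset.univ.erase j, (1 + Real.cos (k i)) / 2 ≤ 1 :=
      Finset.prod_le_one (fun i _ => by have := Real.neg_one_le_cos (k i); linarith)
        (fun i _ => by have := Real.cos_le_one (k i); linarith)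
    calc (1 + Real.cos (k j)) / 2 * ∏ i ∈ Finset.univ.erase j, (1 + Real.cos (k i)) / 2
        ≤ (1 + Real.cos (k j)) / 2 * 1 := mul_le_mul_of_nonneg_left h3 h2
      _ = _ := mul_one _
  have h4 : ∑ _j : Fin d, ee k ≤ ∑ j, (1 + Real.cos (k j)) / 2 :=
    Finset.sum_le_sum fun j _ => h1 j
  rw [← Finset.sum_div, Finset.sum_add_distrib] at h4
  simp only [Finset.sum_const, Finset.card_univ, Fintype.card_fin, nsmul_eq_mul, mul_one] at h4
  unfold uu
  have h5 : ee k ≤ (1 + (∑ i, Real.cos (k i)) / d) / 2 := by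
    rw [le_div_iff₀ (by norm_num)]
    have e : 1 + (∑ i, Real.cos (k i)) / d = (d + ∑ i, Real.cos (k i)) / d := by field_simp
    rw [e, le_div_iff₀ hd0]
    linarith
  linarith

/-- Second moment in the direction `i` (signed). -/
noncomputable def sm (f : V d → ℝ) (i : Fin d) : ℝ := ∑' x, (x i : ℝ) ^ 2 * f x

lemma four_le_wm (x : V d) : ∑ i, (x i : ℝ) ^ 4 ≤ (wm 2 x : ℝ) := by
  unfold wm
  push_cast
  have e : ∀ i, ((x i).natAbs : ℝ) ^ (2 * 2) = (x i : ℝ) ^ 4 := by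
    intro i
    rw [Nat.cast_natAbs, Int.cast_abs, show 2 * 2 = 4 by norm_num, show (4 : ℕ) = 2 * 2 by norm_num,
      pow_mul, pow_mul, sq_abs]
  simp only [e]
  linarith

theorem x_tay {f : V d → ℝ} (hf : WS f) (hf4 : Summable fun x => (wm 2 x : ℝ) * |f x|)
    (hs : ∀ ε x, f (fl ε x) = f x) (k : Fin d → ℝ) :
    |(ft f 0).re - (ft f k).re - (∑ i, k i ^ 2 * sm f i) / 2| ≤
      (∑ i, k i ^ 2) ^ 2 / 4 * ∑' x, (wm 2 x : ℝ) * |f x| := by
  have hsum := hf.sum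
  rw [ft_cos hsum hs 0, ft_cos hsum hs k, Complex.ofReal_re, Complex.ofReal_re]
  simp only [Pi.zero_apply, zero_mul, Real.cos_zero, Finset.prod_const_one, mul_one]
  have s1 : Summable fun x : V d => f x * ∏ i, Real.cos (k i * (x i : ℝ)) := by
    refine Summable.of_norm_bounded hsum.abs fun x => ?_
    rw [Real.norm_eq_abs, abs_mul, Finset.abs_prod]
    refine mul_le_of_le_one_right (abs_nonneg _) ?_
    exact Finset.prod_le_one (fun i _ => abs_nonneg _) (fun i _ => Real.abs_cos_le_one _)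
  have s2 : ∀ i, Summable fun x : V d => (x i : ℝ) ^ 2 * f x := by
    intro i
    refine Summable.of_norm_bounded (hf.sq i) fun x => ?_
    rw [Real.norm_eq_abs, abs_mul, abs_of_nonneg (by positivity : (0 : ℝ) ≤ (x i : ℝ) ^ 2)]
  have s3 : Summable fun x : V d => ∑ i, k i ^ 2 / 2 * ((x i : ℝ) ^ 2 * f x) :=
    summable_sum fun i _ => (s2 i).mul_left _
  have e1 : (∑ i, k i ^ 2 * sm f i) / 2 = ∑' x : V d, ∑ i, k i ^ 2 / 2 * ((x i : ℝ) ^ 2 * f x) := by
    rw [Summable.tsum_finsetSum fun i _ => (s2 i).mul_left _, Finset.sum_div]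
    refine Finset.sum_congr rfl fun i _ => ?_
    rw [tsum_mul_left, sm]
    ring
  rw [e1, ← hsum.tsum_sub s1, ← (hsum.sub s1).tsum_sub s3, ← tsum_mul_left]
  have hb : ∀ x : V d, ‖f x - f x * ∏ i, Real.cos (k i * (x i : ℝ)) -
      ∑ i, k i ^ 2 / 2 * ((x i : ℝ) ^ 2 * f x)‖ ≤
      (∑ i, k i ^ 2) ^ 2 / 4 * ((wm 2 x : ℝ) * |f x|) := by
    intro x
    have e2 : f x - f x * ∏ i, Real.cos (k i * (x i : ℝ)) -
        ∑ i, k i ^ 2 / 2 * ((x i : ℝ) ^ 2 * f x) =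
        -(f x * (∏ i, Real.cos (k i * (x i : ℝ)) - 1 + ∑ i, (k i * (x i : ℝ)) ^ 2 / 2)) := by
      have e3 : ∑ i, k i ^ 2 / 2 * ((x i : ℝ) ^ 2 * f x) =
          f x * ∑ i, (k i * (x i : ℝ)) ^ 2 / 2 := by
        rw [Finset.mul_sum]
        refine Finset.sum_congr rfl fun i _ => by ring
      rw [e3]
      ring
    rw [e2, norm_neg, Real.norm_eq_abs, abs_mul]
    have h1 := cos_mul_tay (Finset.univ : Finset (Fin d)) (fun i => k i * (x i : ℝ))
    have h2 : (∑ i, (k i * (x i : ℝ)) ^ 2 / 2) ^ 2 ≤ (∑ i, k i ^ 2) ^ 2 / 4 * (wm 2 x : ℝ) := by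
      have h3 : (∑ i, k i * (k i * (x i : ℝ) ^ 2)) ^ 2 ≤
          (∑ i, k i ^ 2) * ∑ i, (k i * (x i : ℝ) ^ 2) ^ 2 :=
        Finset.sum_mul_sq_le_sq_mul_sq _ _ _
      have h4 : ∑ i, (k i * (x i : ℝ) ^ 2) ^ 2 ≤ (∑ i, k i ^ 2) * ∑ i, (x i : ℝ) ^ 4 := by
        rw [Finset.mul_sum]
        refine Finset.sum_le_sum fun i _ => ?_
        have h5 : k i ^ 2 ≤ ∑ i, k i ^ 2 :=
          Finset.single_le_sum (f := fun i => k i ^ 2) (fun i _ => by positivity)
            (Finset.mem_univ i)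
        calc (k i * (x i : ℝ) ^ 2) ^ 2 = k i ^ 2 * (x i : ℝ) ^ 4 := by ring
          _ ≤ (∑ i, k i ^ 2) * (x i : ℝ) ^ 4 := mul_le_mul_of_nonneg_right h5 (by positivity)
      have h6 := four_le_wm x
      have h7 : (0 : ℝ) ≤ ∑ i, k i ^ 2 := Finset.sum_nonneg fun i _ => by positivity
      have e4 : ∑ i, (k i * (x i : ℝ)) ^ 2 / 2 = (∑ i, k i * (k i * (x i : ℝ) ^ 2)) / 2 := by
        rw [Finset.sum_div]
        refine Finset.sum_congr rfl fun i _ => by ring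
      rw [e4, div_pow]
      calc (∑ i, k i * (k i * (x i : ℝ) ^ 2)) ^ 2 / 2 ^ 2
          ≤ ((∑ i, k i ^ 2) * ((∑ i, k i ^ 2) * ∑ i, (x i : ℝ) ^ 4)) / 2 ^ 2 := by
            gcongr
            exact h3.trans (mul_le_mul_of_nonneg_left h4 h7)
        _ ≤ ((∑ i, k i ^ 2) * ((∑ i, k i ^ 2) * (wm 2 x : ℝ))) / 2 ^ 2 := by gcongr
        _ = _ := by ring
    calc |f x| * |∏ i, Real.cos (k i * (x i : ℝ)) - 1 + ∑ i, (k i * (x i : ℝ)) ^ 2 / 2|
        ≤ |f x| * ((∑ i, k i ^ 2) ^ 2 / 4 * (wm 2 x : ℝ)) :=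
          mul_le_mul_of_nonneg_left (h1.trans h2) (abs_nonneg _)
      _ = _ := by ring
  have hS : Summable fun x : V d => (∑ i, k i ^ 2) ^ 2 / 4 * ((wm 2 x : ℝ) * |f x|) :=
    hf4.mul_left _
  rw [← Real.norm_eq_abs]
  refine (norm_tsum_le_tsum_norm ?_).trans ?_
  · exact Summable.of_nonneg_of_le (fun x => norm_nonneg _) hb hS
  · exact (Summable.of_nonneg_of_le (fun x => norm_nonneg _) hb hS).tsum_le_tsum hb hS

/-- Permutation symmetry of the second moments. -/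
lemma sm_eq {f : V d → ℝ} (hp : ∀ σ x, f (pm σ x) = f x) (i j : Fin d) : sm f i = sm f j := by
  unfold sm
  rw [← (pmE (Equiv.swap i j)).tsum_eq]
  refine tsum_congr fun x => ?_
  have e : pmE (Equiv.swap i j) x = pm (Equiv.swap i j) x := rfl
  rw [e, hp]
  unfold pm
  rw [Equiv.swap_apply_left]

lemma sm_abs {f : V d → ℝ} (hf : WS f) (i : Fin d) :
    |sm f i| ≤ ∑' x, (x i : ℝ) ^ 2 * |f x| := by
  unfold sm
  rw [← Real.norm_eq_abs]
  refine (norm_tsum_le_tsum_norm ?_).trans (le_of_eq (tsum_congr fun x => ?_))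
  · refine (hf.sq i).congr fun x => ?_
    rw [Real.norm_eq_abs, abs_mul, abs_of_nonneg (by positivity : (0 : ℝ) ≤ (x i : ℝ) ^ 2)]
  · rw [Real.norm_eq_abs, abs_mul, abs_of_nonneg (by positivity : (0 : ℝ) ≤ (x i : ℝ) ^ 2)]

end H15LE
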